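import Pool.Agent.Run7.h670.MY.StmN

/-!
# March-Young bound (helper670), piece N_NUM (helper354)
-/

set_option autoImplicit false

open MeasureTheory Set

namespace Pool.Agent.Run7.h354.MY

open Pool.Agent.Run7.h670.MY

/-- `(x / e) ^ x ≤ Γ(x + 1)` -/
theorem gamma_lb {x : ℝ} (hx : 0 < x) :
    (x / Real.exp 1) ^ x ≤ Real.Gamma (x + 1) := by
  have h1 : (x / Real.exp 1) ^ x = x ^ x * Real.exp (-x) := by
    rw [Real.div_rpow hx.le (Real.exp_pos 1).le, Real.exp_one_rpow, Real.exp_neg, div_eq_mul_inv]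
  rw [h1, Real.Gamma_eq_integral (by linarith : (0 : ℝ) < x + 1)]
  have hint := Real.GammaIntegral_convergent (by linarith : (0 : ℝ) < x + 1)
  have hsub : Ioi x ⊆ Ioi (0 : ℝ) := Ioi_subset_Ioi hx.le
  have h2 : ∫ t in Ioi x, Real.exp (-t) * t ^ (x + 1 - 1) ≤
      ∫ t in Ioi (0 : ℝ), Real.exp (-t) * t ^ (x + 1 - 1) := by
    apply setIntegral_mono_set hint
    · refine (ae_restrict_iff' measurableSet_Ioi).2 (Filter.Eventually.of_forall ?_)
      intro t ht
      exact mul_nonneg (Real.exp_pos _).le (Real.rpow_nonneg (le_of_lt ht) _)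
    · exact hsub.eventuallyLE
  refine le_trans ?_ h2
  have h3 : x ^ x * Real.exp (-x) = ∫ t in Ioi x, x ^ x * Real.exp (-t) := by
    rw [integral_const_mul, integral_exp_neg_Ioi]
  rw [h3]
  apply setIntegral_mono_on
  · exact (integrableOn_exp_neg_Ioi x).const_mul _
  · exact hint.mono_set hsub
  · exact measurableSet_Ioi
  · intro t ht
    rw [mul_comm]
    apply mul_le_mul_of_nonneg_left _ (Real.exp_pos _).le
    rw [add_sub_cancel_right]
    exact Real.rpow_le_rpow hx.le (le_of_lt ht) hx.le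

theorem t_N_NUM : N_NUM := by
  intro d N hN hd
  have hN1 : (1 : ℝ) ≤ N := by exact_mod_cast hN
  have hdN : 30 * (N : ℝ) ^ 2 ≤ d := by exact_mod_cast hd
  have hN2 : (1 : ℝ) ≤ (N : ℝ) ^ 2 := one_le_pow₀ hN1
  have hd0 : (0 : ℝ) < d := by linarith
  have hdne : (d : ℝ) ≠ 0 := hd0.ne'
  have hpi := Real.pi_pos
  have he := Real.exp_pos 1
  have hx : (0 : ℝ) < (d : ℝ) / 2 := by linarith
  have hg := gamma_lb hx
  have hb : (0 : ℝ) < (d : ℝ) / 2 / Real.exp 1 := by positivity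
  have hgp : (0 : ℝ) < ((d : ℝ) / 2 / Real.exp 1) ^ ((d : ℝ) / 2) := Real.rpow_pos_of_pos hb _
  have hsq : (0 : ℝ) ≤ √Real.pi ^ d := pow_nonneg (Real.sqrt_nonneg _) _
  have h1 : om d ≤ √Real.pi ^ d / ((d : ℝ) / 2 / Real.exp 1) ^ ((d : ℝ) / 2) := by
    unfold om
    exact div_le_div_of_nonneg_left hsq hgp hg
  have hom : 0 ≤ om d := by
    unfold om
    exact div_nonneg hsq (hgp.le.trans hg)
  have h2 : om d ^ (4 / (d : ℝ)) ≤ Real.pi ^ 2 * (2 * Real.exp 1 / d) ^ 2 := by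
    refine (Real.rpow_le_rpow hom h1 (by positivity)).trans (le_of_eq ?_)
    rw [Real.div_rpow hsq hgp.le]
    have e1 : (√Real.pi ^ d) ^ (4 / (d : ℝ)) = Real.pi ^ 2 := by
      rw [← Real.rpow_natCast (√Real.pi) d, ← Real.rpow_mul (Real.sqrt_nonneg _)]
      have : (d : ℝ) * (4 / d) = ((4 : ℕ) : ℝ) := by
        push_cast
        field_simp
      rw [this, Real.rpow_natCast]
      have hs : √Real.pi ^ 2 = Real.pi := Real.sq_sqrt hpi.le
      calc √Real.pi ^ 4 = (√Real.pi ^ 2) ^ 2 := by ring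
        _ = Real.pi ^ 2 := by rw [hs]
    have e2 : (((d : ℝ) / 2 / Real.exp 1) ^ ((d : ℝ) / 2)) ^ (4 / (d : ℝ)) =
        ((d : ℝ) / 2 / Real.exp 1) ^ 2 := by
      rw [← Real.rpow_mul hb.le]
      have : (d : ℝ) / 2 * (4 / d) = ((2 : ℕ) : ℝ) := by
        push_cast
        field_simp
        norm_num
      rw [this, Real.rpow_natCast]
    rw [e1, e2]
    field_simp
  have h3 : (N : ℝ) ^ (2 - 2 / (d : ℝ)) ≤ (N : ℝ) ^ 2 := by
    rw [← Real.rpow_natCast (N : ℝ) 2]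
    apply Real.rpow_le_rpow_of_exponent_le hN1
    have : 0 ≤ 2 / (d : ℝ) := by positivity
    push_cast
    linarith
  have he2 : 4 * Real.exp 1 ^ 2 ≤ 30 := by
    have := Real.exp_one_lt_d9
    nlinarith
  calc (N : ℝ) ^ (2 - 2 / (d : ℝ)) * d * om d ^ (4 / (d : ℝ))
      ≤ (N : ℝ) ^ 2 * d * (Real.pi ^ 2 * (2 * Real.exp 1 / d) ^ 2) := by
        apply mul_le_mul _ h2 (Real.rpow_nonneg hom _) (by positivity)
        exact mul_le_mul_of_nonneg_right h3 hd0.le
    _ = Real.pi ^ 2 * ((N : ℝ) ^ 2 * (4 * Real.exp 1 ^ 2) / d) := by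
        field_simp
        ring
    _ ≤ Real.pi ^ 2 * 1 := by
        apply mul_le_mul_of_nonneg_left _ (by positivity)
        rw [div_le_one hd0]
        nlinarith
    _ = Real.pi ^ 2 := mul_one _

end Pool.Agent.Run7.h354.MY
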